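import Pool.Agent.Run7.h543.Final
import Pool.Agent.Run7.h543.Adm

/-!
# Seymour graphs that are 4-connected

A 4-connected graph is a Seymour graph if and only if it has a vertex whose deletion leaves a
bipartite graph.
-/

namespace Pool.Agent.Results.MP_ded8ec_lc.FourConnected

open Run7.h543

variable {V : Type*} {G : SimpleGraph V}

lemma walk_closed {S : Set V} {D : Set V}
    (hD : ∀ x ∈ D, ∀ y ∈ S, G.Adj x y → y ∈ D) {u w : S} (p : (G.induce S).Walk u w)
    (hu : (u : V) ∈ D) : (w : V) ∈ D := by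
  induction p with
  | nil => exact hu
  | cons h _ ih => exact ih (hD _ hu _ (Subtype.property _) h)

lemma sep_of_kConnected [Fintype V] [DecidableEq V] {k : ℕ} (h : IsKConnected G k) :
    Sep k G := by
  intro D N hD hDN hz hcl
  by_contra hlt
  push Not at hlt
  obtain ⟨x, hx⟩ := hD
  obtain ⟨z, hzD, hzN⟩ := hz
  have h1 := h.2 (N : Set V) (by rw [Set.ncard_coe_finset]; exact hlt)
  have hxN : x ∈ ((N : Set V))ᶜ := fun h2 => Finset.disjoint_left.1 hDN hx h2
  have hzN' : z ∈ ((N : Set V))ᶜ := fun h2 => hzN h2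
  obtain ⟨p⟩ := h1.preconnected ⟨x, hxN⟩ ⟨z, hzN'⟩
  apply hzD
  refine walk_closed (D := (D : Set V)) ?_ p hx
  intro a ha b hb hab
  rcases hcl a ha b hab with h2 | h2
  · exact h2
  · exact absurd h2 hb

/-- **A 4-connected graph is a Seymour graph if and only if it becomes bipartite after deleting
some vertex.** -/
theorem result {V : Type*} [Finite V] (G : SimpleGraph V) (hG : IsKConnected G 4) :
    IsSeymour G ↔ ∃ v : V, (G.induce {v}ᶜ).IsBipartite := by
  classical
  have : Fintype V := Fintype.ofFinite V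
  constructor
  · intro hS
    obtain ⟨u, c, hc⟩ := seymour_imp_apex hS (sep_of_kConnected hG)
      (by have := hG.1; rw [Nat.card_eq_fintype_card] at this; omega)
    refine ⟨u, ?_⟩
    let C : (G.induce ({u} : Set V)ᶜ).Coloring Bool := SimpleGraph.Coloring.mk
      (fun x => c x.1) (fun {x y} hxy => hc x.1 y.1 hxy x.2 y.2)
    have h1 := C.colorable
    rwa [Fintype.card_bool] at h1
  · rintro ⟨v, ⟨C⟩⟩
    refine apex_seymour v (fun x => if h : x ∈ ({v} : Set V)ᶜ then decide (C ⟨x, h⟩ = 0) else true)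
      ?_
    intro x y hxy hx hy
    have hx' : x ∈ ({v} : Set V)ᶜ := hx
    have hy' : y ∈ ({v} : Set V)ᶜ := hy
    have h1 : C ⟨x, hx'⟩ ≠ C ⟨y, hy'⟩ := C.valid (show (G.induce _).Adj ⟨x, hx'⟩ ⟨y, hy'⟩ from hxy)
    rw [dif_pos hx', dif_pos hy']
    generalize C ⟨x, hx'⟩ = p at h1
    generalize C ⟨y, hy'⟩ = q at h1
    revert p q
    decide

end Pool.Agent.Results.MP_ded8ec_lc.FourConnected
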